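import Pool.Agent.H73.TorusE

/-!
# A complete indefinite metric on a closed manifold with almost all geodesic orbits unbounded

The witness is the three-torus `ℝ³/(2πℤ)³` with the Lorentzian metric
`g = 2 (cos θ dx + sin θ dy) dθ + (cos θ dy - sin θ dx)²`.
Along a geodesic put `W = θ'`, `A = cos θ x' + sin θ y'`, `B = cos θ y' - sin θ x'`. The geodesic
equation is `W' = B W`, `B' = -W²`, `A' = B (W - A)`. Hence `(A - W/2) W` is constant, and it is
nonzero for almost all initial velocities. If the orbit were bounded then `|W|` would be bounded
below by a positive constant, so `B` would tend to `-∞`: a contradiction.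
-/

open scoped Manifold ContDiff Topology
open Pool.Agent.H73

namespace Pool.Agent.Results.MP_53eea8_gt.UnboundedOrbits

/-- There are a closed connected smooth manifold `M` (modelled on a three-dimensional normed space
`E`) and a smooth, geodesically complete semi-Riemannian metric `g` of indefinite signature on `M`
such that the set of tangent vectors with bounded geodesic orbit is a null set of `TM`, and the set
of tangent vectors with unbounded geodesic orbit is not a null set of `TM`. -/
theorem result :
    ∃ (E : Type) (_ : NormedAddCommGroup E) (_ : NormedSpace ℝ E) (_ : Module.finrank ℝ E = 3)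
      (_ : MeasurableSpace E) (_ : BorelSpace E)
      (M : Type) (_ : TopologicalSpace M) (_ : ChartedSpace E M) (_ : IsManifold 𝓘(ℝ, E) ∞ M)
      (_ : T2Space M) (_ : SecondCountableTopology M) (_ : CompactSpace M) (_ : ConnectedSpace M)
      (g : SemiRiemannianMetric E M),
      g.IsIndefinite ∧ g.IsComplete ∧
      IsNull {v : TangentBundle 𝓘(ℝ, E) M |
        ∃ γ : ℝ → M, g.IsGeodesic γ ∧ velocity γ 0 = v ∧ HasBoundedOrbit E γ} ∧
      ¬ IsNull {v : TangentBundle 𝓘(ℝ, E) M |
        ∀ γ : ℝ → M, g.IsGeodesic γ → velocity γ 0 = v → ¬ HasBoundedOrbit E γ} :=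
  ⟨E3, inferInstance, inferInstance, by simp, inferInstance, inferInstance,
    T3, inferInstance, inferInstance, T3_manifold, inferInstance, inferInstance, inferInstance,
    inferInstance, gT, gT_indef, gT_complete, bounded_null, unbounded_not_null⟩

end Pool.Agent.Results.MP_53eea8_gt.UnboundedOrbits
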